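import Pool.Agent.H71.WE.Targets

/-!
# Row CUT of wee_modules: cut functions
-/

set_option autoImplicit false

namespace Pool.Agent.H67.WE

open Finset Pool.Agent.H71.WE

section
variable {V E : Type} [Fintype V] [DecidableEq V] [DecidableEq E]

theorem cn_sum (G : Gr V E) (A : Finset E) (X : Finset V) :
    cn G A X = ∑ e ∈ A, if Cr G X e then 1 else 0 := by
  unfold cn
  rw [card_filter]

end

theorem pf_CUT : T_CUT := by
  intro V E _ _ _ G A
  refine ⟨fun X => cn_compl G A X, fun X Y => ?_, fun X Y => ?_, fun X Y hXY => ?_⟩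
  · rw [cn_sum, cn_sum, cn_sum, cn_sum, ← sum_add_distrib, ← sum_add_distrib]
    apply sum_le_sum
    intro e _
    unfold Cr
    simp only [mem_inter, mem_union]
    by_cases h1 : G.s e ∈ X <;> by_cases h2 : G.s e ∈ Y <;> by_cases h3 : G.t e ∈ X <;>
      by_cases h4 : G.t e ∈ Y <;> simp [h1, h2, h3, h4]
  · rw [cn_sum, cn_sum, cn_sum, cn_sum, ← sum_add_distrib, ← sum_add_distrib]
    apply sum_le_sum
    intro e _
    unfold Cr
    simp only [mem_sdiff]
    by_cases h1 : G.s e ∈ X <;> by_cases h2 : G.s e ∈ Y <;> by_cases h3 : G.t e ∈ X <;>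
      by_cases h4 : G.t e ∈ Y <;> simp [h1, h2, h3, h4]
  · rw [cn_sum, cn_sum, cn_sum, ← sum_add_distrib, ← sum_add_distrib]
    apply Finset.even_sum
    intro e _
    have hd : ∀ v, v ∈ X → v ∉ Y := fun v hv hv' => (Finset.disjoint_left.1 hXY) hv hv'
    have hs := hd (G.s e)
    have ht := hd (G.t e)
    unfold Cr
    simp only [mem_union]
    by_cases h1 : G.s e ∈ X <;> by_cases h2 : G.s e ∈ Y <;> by_cases h3 : G.t e ∈ X <;>
      by_cases h4 : G.t e ∈ Y <;> simp [h1, h2, h3, h4] at hs ht ⊢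

end Pool.Agent.H67.WE
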