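import Pool.Agent.H67.WE.CUT

/-!
# Row CUX of wee_modules: further identities for cuts
-/

set_option autoImplicit false

namespace Pool.Agent.H67.WE

open Finset Pool.Agent.H71.WE

theorem pf_CUX : T_CUX := by
  intro V E _ _ _ G A
  refine ⟨fun X Y p hp x y hj hxX hxY hyX hyY => ?_, fun X Y hXY => ?_, fun X => ?_⟩
  · rw [cn_sum, cn_sum, cn_sum, cn_sum, ← sum_add_distrib, ← sum_add_distrib]
    rw [← add_sum_erase A _ hp, ← add_sum_erase A
      (fun e => (if Cr G X e then 1 else 0) + if Cr G Y e then 1 else 0) hp]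
    have h1 : ∑ e ∈ A.erase p, ((if Cr G (X \ Y) e then 1 else 0) +
        if Cr G (Y \ X) e then 1 else 0) ≤
        ∑ e ∈ A.erase p, ((if Cr G X e then 1 else 0) + if Cr G Y e then 1 else 0) := by
      apply sum_le_sum
      intro e _
      unfold Cr
      simp only [mem_sdiff]
      by_cases h1 : G.s e ∈ X <;> by_cases h2 : G.s e ∈ Y <;> by_cases h3 : G.t e ∈ X <;>
        by_cases h4 : G.t e ∈ Y <;> simp [h1, h2, h3, h4]
    have h2 : ((if Cr G (X \ Y) p then 1 else 0) + if Cr G (Y \ X) p then 1 else 0) = 0 := by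
      have e1 : ¬ Cr G (X \ Y) p := by
        rw [jn_cr hj]
        simp only [mem_sdiff]
        tauto
      have e2 : ¬ Cr G (Y \ X) p := by
        rw [jn_cr hj]
        simp only [mem_sdiff]
        tauto
      rw [if_neg e1, if_neg e2]
    have h3 : ((if Cr G X p then 1 else 0) + if Cr G Y p then 1 else 0) = 2 := by
      have e1 : Cr G X p := (jn_cr hj X).2 (Or.inl ⟨hxX, hyX⟩)
      have e2 : Cr G Y p := (jn_cr hj Y).2 (Or.inl ⟨hxY, hyY⟩)
      rw [if_pos e1, if_pos e2]
    omega
  · rw [cn_sum, cn_sum, cn_sum, card_filter, mul_sum, ← sum_add_distrib, ← sum_add_distrib]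
    apply sum_congr rfl
    intro e _
    have hd : ∀ v, v ∈ X → v ∉ Y := fun v hv hv' => (Finset.disjoint_left.1 hXY) hv hv'
    have hs := hd (G.s e)
    have ht := hd (G.t e)
    unfold Cr
    simp only [mem_union]
    by_cases h1 : G.s e ∈ X <;> by_cases h2 : G.s e ∈ Y <;> by_cases h3 : G.t e ∈ X <;>
      by_cases h4 : G.t e ∈ Y <;> simp [h1, h2, h3, h4] at hs ht ⊢
  · have h1 : ∑ v ∈ X, cn G A {v} = ∑ e ∈ A, ∑ v ∈ X, if Cr G {v} e then 1 else 0 := by
      rw [sum_comm]
      exact sum_congr rfl fun v _ => cn_sum G A {v}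
    rw [h1, cn_sum, ← sum_add_distrib]
    apply Finset.even_sum
    intro e _
    by_cases hst : G.s e = G.t e
    · have e1 : ∀ Y : Finset V, ¬ Cr G Y e := by
        intro Y
        unfold Cr
        rw [hst]
        tauto
      rw [if_neg (e1 X), sum_eq_zero fun v _ => if_neg (e1 {v})]
      exact Even.zero
    · have e1 : ∀ v ∈ X, (if Cr G {v} e then 1 else 0) =
          (if G.s e = v then 1 else 0) + if G.t e = v then 1 else 0 := by
        intro v _
        unfold Cr
        simp only [mem_singleton]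
        by_cases h1 : G.s e = v
        · have h2 : G.t e ≠ v := fun h => hst (h1.trans h.symm)
          simp [h1, h2]
        · by_cases h2 : G.t e = v <;> simp [h1, h2]
      rw [sum_congr rfl e1, sum_add_distrib, sum_ite_eq, sum_ite_eq]
      unfold Cr
      by_cases h1 : G.s e ∈ X <;> by_cases h2 : G.t e ∈ X <;> simp [h1, h2]

end Pool.Agent.H67.WE
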