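import Pool.Agent.H71.WE.Targets

/-!
# Row RQ of wee_modules: the two requirements
-/

set_option autoImplicit false
set_option linter.unusedSectionVars false

namespace Pool.Agent.H67.WE

open Finset Pool.Agent.H71.WE

section
variable {V : Type} [Fintype V] [DecidableEq V]

theorem rK_ge (K : Finset V) (r : ℕ) (X : Finset V) : r ≤ rK K r X := by
  unfold rK
  split_ifs <;> omega

theorem rK_le (K : Finset V) (r : ℕ) (X : Finset V) : rK K r X ≤ r + 2 := by
  unfold rK
  split_ifs <;> omega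

theorem rK_pos {K : Finset V} {r : ℕ} {X : Finset V} (h : Disjoint X K ∨ K ⊆ X) :
    rK K r X = r + 2 := by
  unfold rK
  rw [if_pos h]

theorem rK_neg {K : Finset V} {r : ℕ} {X : Finset V} (h : ¬ (Disjoint X K ∨ K ⊆ X)) :
    rK K r X = r := by
  unfold rK
  rw [if_neg h]

/-- the two inequalities at once -/
theorem rK_two (K : Finset V) (r : ℕ) {X Y S T : Finset V}
    (h1 : (Disjoint X K ∨ K ⊆ X) → (Disjoint S K ∨ K ⊆ S) ∨ (Disjoint T K ∨ K ⊆ T))
    (h2 : (Disjoint Y K ∨ K ⊆ Y) → (Disjoint S K ∨ K ⊆ S) ∨ (Disjoint T K ∨ K ⊆ T))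
    (h3 : (Disjoint X K ∨ K ⊆ X) → (Disjoint Y K ∨ K ⊆ Y) →
      (Disjoint S K ∨ K ⊆ S) ∧ (Disjoint T K ∨ K ⊆ T)) :
    rK K r X + rK K r Y ≤ rK K r S + rK K r T := by
  have a1 := rK_ge K r S
  have a2 := rK_ge K r T
  have b1 := rK_le K r X
  have b2 := rK_le K r Y
  by_cases hX : Disjoint X K ∨ K ⊆ X
  · by_cases hY : Disjoint Y K ∨ K ⊆ Y
    · obtain ⟨hS, hT⟩ := h3 hX hY
      rw [rK_pos hS, rK_pos hT]
      omega
    · rw [rK_neg hY]
      rcases h1 hX with h | h
      · rw [rK_pos h]; omega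
      · rw [rK_pos h]; omega
  · rw [rK_neg hX]
    by_cases hY : Disjoint Y K ∨ K ⊆ Y
    · rcases h2 hY with h | h
      · rw [rK_pos h]; omega
      · rw [rK_pos h]; omega
    · rw [rK_neg hY]
      omega

end

theorem pf_RQ : T_RQ := by
  intro V _ _ z
  refine ⟨fun c hc => ⟨fun _ => hc, fun _ _ => rfl, fun _ _ _ _ => le_rfl,
    fun _ _ _ _ => le_rfl⟩, fun K r hz hr => ⟨fun X => ?_, fun X hX => ?_, fun X Y _ _ => ?_,
      fun X Y _ _ => ?_⟩⟩
  · unfold rK
    split_ifs
    · exact hr.add (by decide)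
    · exact hr
  · have hiff : (Disjoint (Xᶜ.erase z) K ∨ K ⊆ Xᶜ.erase z) ↔ (Disjoint X K ∨ K ⊆ X) := by
      have e1 : Disjoint (Xᶜ.erase z) K ↔ K ⊆ X := by
        rw [Finset.disjoint_left]
        constructor
        · intro h v hv
          by_contra h2
          exact h (mem_erase.2 ⟨fun h3 => hz (h3 ▸ hv), mem_compl.2 h2⟩) hv
        · intro h v hv hvK
          exact (mem_compl.1 (mem_erase.1 hv).2) (h hvK)
      have e2 : K ⊆ Xᶜ.erase z ↔ Disjoint X K := by
        rw [Finset.disjoint_left]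
        constructor
        · intro h v hv hvK
          exact (mem_compl.1 (mem_erase.1 (h hvK)).2) hv
        · intro h v hv
          exact mem_erase.2 ⟨fun h3 => hz (h3 ▸ hv), mem_compl.2 fun h4 => h h4 hv⟩
      rw [e1, e2, or_comm]
    unfold rK
    simp only [hiff]
  · apply rK_two
    · rintro (h | h)
      · exact Or.inl (Or.inl (h.mono_left inter_subset_left))
      · exact Or.inr (Or.inr (h.trans subset_union_left))
    · rintro (h | h)
      · exact Or.inl (Or.inl (h.mono_left inter_subset_right))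
      · exact Or.inr (Or.inr (h.trans subset_union_right))
    · rintro (h | h) (h' | h')
      · exact ⟨Or.inl (h.mono_left inter_subset_left), Or.inl (disjoint_union_left.2 ⟨h, h'⟩)⟩
      · exact ⟨Or.inl (h.mono_left inter_subset_left), Or.inr (h'.trans subset_union_right)⟩
      · exact ⟨Or.inl (h'.mono_left inter_subset_right), Or.inr (h.trans subset_union_left)⟩
      · exact ⟨Or.inr (subset_inter h h'), Or.inr (h.trans subset_union_left)⟩
  · have hd : ∀ {S T : Finset V}, K ⊆ S → Disjoint (T \ S) K := by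
      intro S T h
      rw [Finset.disjoint_left]
      intro v hv hvK
      exact (mem_sdiff.1 hv).2 (h hvK)
    have hs : ∀ {S T : Finset V}, K ⊆ S → Disjoint T K → K ⊆ S \ T := by
      intro S T h h' v hv
      exact mem_sdiff.2 ⟨h hv, fun h2 => (Finset.disjoint_left.1 h') h2 hv⟩
    apply rK_two
    · rintro (h | h)
      · exact Or.inl (Or.inl (h.mono_left sdiff_subset))
      · exact Or.inr (Or.inl (hd h))
    · rintro (h | h)
      · exact Or.inr (Or.inl (h.mono_left sdiff_subset))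
      · exact Or.inl (Or.inl (hd h))
    · rintro (h | h) (h' | h')
      · exact ⟨Or.inl (h.mono_left sdiff_subset), Or.inl (h'.mono_left sdiff_subset)⟩
      · exact ⟨Or.inl (h.mono_left sdiff_subset), Or.inr (hs h' h)⟩
      · exact ⟨Or.inr (hs h h'), Or.inl (h'.mono_left sdiff_subset)⟩
      · exact ⟨Or.inl (hd h'), Or.inl (hd h)⟩

end Pool.Agent.H67.WE
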